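import Mathlib

/-!
# The covering conjecture for base-`t` digits modulo `t ^ n - 1`, for every prime power `t`

Let `t = p ^ k`, `N = t ^ n - 1`, and suppose that there is no pair `a ≺ b`, `d b ≺ d a`.
By Lucas' theorem all the products `C(b, a) C(-db, -da)`, `0 < a < b < N`, then vanish modulo `p`.
For `F = 𝔽_{t^n}` and `α, β ∈ F` this computes all the sums
`∑_y (α + β y^d)^b (1 + y)^{-db}`, `0 < b < N`, as `-β^b`. Summing over `b` shows that the
equation `α + β y^d = (1 + y)^d` has a solution `y ∈ F` whenever `β ≠ 0, 1` (a mod `p` count).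
On the other hand, if `(1 + y₀)^d ≠ 1 + y₀^d` for some `y₀`, then a pigeonhole argument on the
pencil of lines through the point `(1 : y₀^d : 1 + y₀^d)` gives such `α, β` without a solution.
So `y ↦ y^d` is additive, and `d` is a power of `p` modulo `N`; the case in which `d` is a power
of `p` but not of `t` is settled by two repdigits.
-/

set_option autoImplicit false

namespace Pool.Agent.Results.MP_afa377_nt.CoveringPrimePower

open Finset

/-! ### base-`p` digits and Lucas -/

theorem lucas_digit {p : ℕ} (hp : p.Prime) : ∀ (i b a : ℕ), ¬ p ∣ Nat.choose b a →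
    a / p ^ i % p ≤ b / p ^ i % p ∧ ¬ p ∣ Nat.choose (b / p ^ i) (a / p ^ i) := by
  have : Fact p.Prime := ⟨hp⟩
  have key : ∀ b a : ℕ, ¬ p ∣ Nat.choose b a →
      a % p ≤ b % p ∧ ¬ p ∣ Nat.choose (b / p) (a / p) := by
    intro b a h
    have h1 := Choose.choose_modEq_choose_mod_mul_choose_div_nat (n := b) (k := a) (p := p)
    have h2 : ¬ p ∣ (b % p).choose (a % p) * (b / p).choose (a / p) := by
      intro h3
      apply h
      exact (Nat.modEq_zero_iff_dvd.1 (h1.trans (Nat.modEq_zero_iff_dvd.2 h3)))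
    constructor
    · by_contra hlt
      push Not at hlt
      apply h2
      rw [Nat.choose_eq_zero_of_lt hlt]
      simp
    · intro h3
      exact h2 (Dvd.dvd.mul_left h3 _)
  intro i
  induction i with
  | zero =>
    intro b a h
    simp only [pow_zero, Nat.div_one]
    exact ⟨(key b a h).1, h⟩
  | succ i ih =>
    intro b a h
    have h1 := ih b a h
    have h2 := key _ _ h1.2
    rw [Nat.div_div_eq_div_mul, Nat.div_div_eq_div_mul, ← pow_succ] at h2
    exact ⟨(key _ _ h2.2).1, h2.2⟩

theorem digit_block {p : ℕ} {a b : ℕ} (h : ∀ i, a / p ^ i % p ≤ b / p ^ i % p) :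
    ∀ (k j : ℕ), a / p ^ j % p ^ k ≤ b / p ^ j % p ^ k := by
  intro k
  induction k with
  | zero => intro j; simp [Nat.mod_one]
  | succ k ih =>
    intro j
    rw [pow_succ', Nat.mod_mul, Nat.mod_mul, Nat.div_div_eq_div_mul, Nat.div_div_eq_div_mul,
      ← pow_succ]
    exact Nat.add_le_add (h j) (Nat.mul_le_mul_left _ (ih (j + 1)))

theorem digit_of_choose {p : ℕ} (hp : p.Prime) (k : ℕ) {a b : ℕ} (h : ¬ p ∣ Nat.choose b a)
    (i : ℕ) : a / (p ^ k) ^ i % (p ^ k) ≤ b / (p ^ k) ^ i % (p ^ k) := by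
  rw [← pow_mul]
  exact digit_block (fun i => (lucas_digit hp i b a h).1) k (k * i)

theorem digit_compl {t : ℕ} (ht : 2 ≤ t) : ∀ (n u v : ℕ), u + v = t ^ n - 1 → ∀ i < n,
    u / t ^ i % t + v / t ^ i % t = t - 1 := by
  intro n
  induction n with
  | zero => intro u v _ i hi; omega
  | succ n ih =>
    intro u v h i hi
    have hpos : 0 < t ^ n := by positivity
    have h1 : u + v + 1 = t * t ^ n := by
      rw [← pow_succ']; have : 0 < t ^ (n + 1) := by positivity
      omega
    have hu := Nat.div_add_mod u t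
    have hv := Nat.div_add_mod v t
    have hur : u % t < t := Nat.mod_lt _ (by omega)
    have hvr : v % t < t := Nat.mod_lt _ (by omega)
    have key : u % t + v % t + 1 = t ∧ u / t + v / t + 1 = t ^ n := by
      generalize u % t = x at *
      generalize v % t = y at *
      generalize u / t = U at *
      generalize v / t = V at *
      generalize t ^ n = T at *
      have e : (t : ℤ) * ((T : ℤ) - U - V) = x + y + 1 := by
        have e1 : ((t * U + x : ℕ) : ℤ) = u := by rw [hu]
        have e2 : ((t * V + y : ℕ) : ℤ) = v := by rw [hv]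
        have e3 : ((u + v + 1 : ℕ) : ℤ) = (t * T : ℕ) := by rw [h1]
        push_cast at e1 e2 e3
        linear_combination -e1 - e2 - e3
      have hK1 : 0 < (T : ℤ) - U - V := by
        by_contra hc
        push Not at hc
        have : (t : ℤ) * ((T : ℤ) - U - V) ≤ 0 := mul_nonpos_of_nonneg_of_nonpos (by positivity) hc
        omega
      have hK2 : (T : ℤ) - U - V < 2 := by
        by_contra hc
        push Not at hc
        have : (t : ℤ) * 2 ≤ (t : ℤ) * ((T : ℤ) - U - V) := mul_le_mul_of_nonneg_left hc (by positivity)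
        omega
      have hK : (T : ℤ) - U - V = 1 := by omega
      rw [hK] at e
      constructor <;> omega
    rcases i with _ | i
    · simp only [pow_zero, Nat.div_one]; omega
    · rw [pow_succ', ← Nat.div_div_eq_div_mul, ← Nat.div_div_eq_div_mul]
      exact ih _ _ (by omega) i (by omega)

/-! ### The finite field argument -/

section field

variable {F : Type*} [Field F] [Fintype F] [DecidableEq F]

/-- sum of `k`-th powers over the whole field -/
theorem sum_pow_all (k : ℕ) (hk : 0 < k) :
    ∑ x : F, x ^ k = if Fintype.card F - 1 ∣ k then (-1 : F) else 0 := by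
  rw [← FiniteField.sum_pow_units F k]
  have : ∑ x : F, x ^ k = ∑ x ∈ (univ : Finset F).filter (· ≠ 0), x ^ k := by
    rw [Finset.sum_filter]
    apply Finset.sum_congr rfl
    intro x _
    by_cases hx : x = 0
    · simp [hx, hk.ne']
    · simp [hx]
  rw [this]
  symm
  apply Finset.sum_bij (fun (u : Fˣ) _ => (u : F))
  · intro u _; simp
  · intro u _ v _ h; exact Units.ext h
  · intro x hx
    simp only [Finset.mem_filter, Finset.mem_univ, true_and] at hx
    exact ⟨Units.mk0 x hx, Finset.mem_univ _, rfl⟩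
  · intro u _; rfl

omit [DecidableEq F] in
theorem geom_one {w : F} (hw : w ≠ 0) (hw1 : w ≠ 1) (N : ℕ) (hN : N = Fintype.card F - 1)
    (hN1 : 1 ≤ N) : ∑ b ∈ Finset.Ico 1 N, w ^ b = -1 := by
  have h1 : ∑ b ∈ Finset.range N, w ^ b = 0 := by
    have h2 := mul_geom_sum w N
    have h3 : w ^ N = 1 := by rw [hN]; exact FiniteField.pow_card_sub_one_eq_one w hw
    rw [h3, sub_self] at h2
    rcases mul_eq_zero.1 h2 with h | h
    · exact absurd (sub_eq_zero.1 h) hw1
    · exact h
  have h4 : Finset.range N = insert 0 (Finset.Ico 1 N) := by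
    ext x; simp; omega
  rw [h4, Finset.sum_insert (by simp)] at h1
  simp at h1
  linear_combination h1

omit [DecidableEq F] in
theorem pow_bij {d : ℕ} (hd : 1 ≤ d) (hc : Nat.Coprime (Fintype.card F - 1) d) :
    Function.Bijective (fun y : F => y ^ d) := by
  have hinj : Function.Injective (fun y : F => y ^ d) := by
    intro x y h
    simp only at h
    by_cases hx : x = 0
    · subst hx
      rw [zero_pow (by omega)] at h
      exact (pow_eq_zero_iff (by omega)).1 h.symm |>.symm
    · by_cases hy : y = 0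
      · subst hy
        rw [zero_pow (by omega)] at h
        exact absurd ((pow_eq_zero_iff (by omega)).1 h) hx
      · have h1 : (x / y) ^ d = 1 := by
          rw [div_pow, h, div_self (pow_ne_zero _ hy)]
        have h2 : (x / y) ^ (Fintype.card F - 1) = 1 :=
          FiniteField.pow_card_sub_one_eq_one _ (div_ne_zero hx hy)
        have h3 : (x / y) ^ (Nat.gcd (Fintype.card F - 1) d) = 1 := by
          rw [← orderOf_dvd_iff_pow_eq_one] at h1 h2 ⊢
          exact Nat.dvd_gcd h2 h1
        rw [hc, pow_one] at h3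
        exact (div_eq_one_iff_eq hy).1 h3
  exact Finite.injective_iff_bijective.1 hinj

end field

section main

variable {F : Type*} [Field F] [Fintype F] [DecidableEq F]

/-- expansion of the weighted sum when there is no nontrivial pair -/
theorem sum_expand {p : ℕ} [CharP F p] {d N b : ℕ} (hN : N = Fintype.card F - 1)
    (hcop : Nat.Coprime N d) (hb1 : 1 ≤ b) (hb : b < N) (α β : F)
    (hno : ∀ a, 1 ≤ a → a < b → p ∣ b.choose a ∨ p ∣ (N - d * b % N).choose (N - d * a % N)) :
    ∑ y : F, (α + β * y ^ d) ^ b * (1 + y) ^ (N - d * b % N) = - β ^ b := by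
  have hmod : ∀ a, 1 ≤ a → a < N → 0 < d * a % N := by
    intro a ha1 ha2
    rcases Nat.eq_zero_or_pos (d * a % N) with h | h
    · have := Nat.dvd_of_mod_eq_zero h
      have h2 := hcop.dvd_of_dvd_mul_left this
      exact absurd (Nat.le_of_dvd (by omega) h2) (by omega)
    · exact h
  have hmodlt : ∀ a, d * a % N < N := fun a => Nat.mod_lt _ (by omega)
  set f := N - d * b % N with hf
  have hfN : f < N := by have := hmod b hb1 hb; omega
  have h1 : ∀ y : F, (α + β * y ^ d) ^ b * (1 + y) ^ f =
      ∑ a ∈ Finset.range (b + 1), ∑ g ∈ Finset.range (f + 1),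
        (α ^ (b - a) * β ^ a * (b.choose a : F) * (f.choose g : F)) * y ^ (d * a + g) := by
    intro y
    rw [add_comm α, add_comm (1 : F), add_pow, add_pow, Finset.sum_mul_sum]
    apply Finset.sum_congr rfl; intro a _
    apply Finset.sum_congr rfl; intro g _
    rw [mul_pow, one_pow, pow_add, pow_mul]
    ring
  rw [Finset.sum_congr rfl (fun y _ => h1 y), Finset.sum_comm]
  have h2 : ∀ a ∈ Finset.range (b + 1), ∑ y : F, ∑ g ∈ Finset.range (f + 1),
        (α ^ (b - a) * β ^ a * (b.choose a : F) * (f.choose g : F)) * y ^ (d * a + g) =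
      if a = b then - β ^ b else 0 := by
    intro a ha
    have hab : a ≤ b := by simpa [Nat.lt_succ_iff] using ha
    rw [Finset.sum_comm]
    have h3 : ∀ g ∈ Finset.range (f + 1), ∑ y : F,
        (α ^ (b - a) * β ^ a * (b.choose a : F) * (f.choose g : F)) * y ^ (d * a + g) =
        if a = b ∧ g = f then - β ^ b else 0 := by
      intro g hg
      have hgf : g ≤ f := by simpa [Nat.lt_succ_iff] using hg
      rw [← Finset.mul_sum]
      by_cases h0 : d * a + g = 0
      · rw [h0]
        simp only [pow_zero, Finset.sum_const, Finset.card_univ, nsmul_eq_mul, mul_one]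
        rw [FiniteField.cast_card_eq_zero]
        have : ¬ (a = b ∧ g = f) := by
          rintro ⟨rfl, rfl⟩
          have := hmodlt a
          omega
        simp [this]
      · rw [sum_pow_all _ (Nat.pos_of_ne_zero h0)]
        by_cases hdv : Fintype.card F - 1 ∣ d * a + g
        · rw [if_pos hdv]
          rw [← hN] at hdv
          have ha1 : 1 ≤ a := by
            rcases Nat.eq_zero_or_pos a with h | h
            · subst h
              rw [mul_zero, zero_add] at hdv h0
              exact absurd (Nat.le_of_dvd (Nat.pos_of_ne_zero h0) hdv) (by omega)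
            · exact h
          have hg2 : g = N - d * a % N := by
            have h5 := hmod a ha1 (by omega)
            have h6 : (d * a % N + g) % N = 0 := by
              rw [Nat.mod_add_mod]; exact Nat.mod_eq_zero_of_dvd hdv
            have h7 := hmodlt a
            obtain ⟨k, hk⟩ := Nat.dvd_of_mod_eq_zero h6
            have hk1 : k = 1 := by
              rcases k with _ | _ | k
              · omega
              · rfl
              · have : N * (k + 1 + 1) ≥ N * 2 := Nat.mul_le_mul_left _ (by omega)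
                omega
            subst hk1
            omega
          by_cases hab2 : a = b
          · subst hab2
            have : g = f := by rw [hg2, hf]
            subst this
            simp
          · rw [if_neg (by tauto)]
            rcases hno a ha1 (by omega) with h | h
            · rw [(CharP.cast_eq_zero_iff F p _).2 h]; simp
            · rw [← hg2] at h
              rw [(CharP.cast_eq_zero_iff F p _).2 h]; simp
        · rw [if_neg hdv]
          have : ¬ (a = b ∧ g = f) := by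
            rintro ⟨rfl, rfl⟩
            apply hdv
            rw [← hN]
            have h7 := hmodlt a
            have h8 := Nat.div_add_mod (d * a) N
            have : d * a + f = N * (d * a / N + 1) := by
              rw [mul_add]; omega
            rw [this]; exact dvd_mul_right _ _
          simp [this]
    rw [Finset.sum_congr rfl h3]
    by_cases hab2 : a = b
    · subst hab2
      simp
    · simp [hab2]
  rw [Finset.sum_congr rfl h2]
  simp


theorem exists_pair {p : ℕ} [CharP F p] {d N : ℕ} (hN : N = Fintype.card F - 1)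
    (hd : 1 ≤ d) (hcop : Nat.Coprime N d) (y0 : F) (hy0 : (1 + y0) ^ d ≠ 1 + y0 ^ d) :
    ∃ a b, 1 ≤ a ∧ a < b ∧ b < N ∧ ¬ p ∣ b.choose a ∧
      ¬ p ∣ (N - d * b % N).choose (N - d * a % N) := by
  by_contra hcon
  have hno : ∀ b, ∀ a, 1 ≤ a → a < b → b < N →
      p ∣ b.choose a ∨ p ∣ (N - d * b % N).choose (N - d * a % N) := by
    intro b a h1 h2 h3
    by_contra h4
    push Not at h4
    exact hcon ⟨a, b, h1, h2, h3, h4.1, h4.2⟩
  have hbij : Function.Bijective (fun y : F => y ^ d) := pow_bij hd (hN ▸ hcop)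
  have hinj := hbij.1
  have hsurj := hbij.2
  have hN1 : 1 ≤ N := by
    have := Fintype.one_lt_card (α := F); omega
  -- the map `ρ` is not surjective
  have hy00 : y0 ≠ 0 := by
    rintro rfl
    apply hy0
    simp [zero_pow (show d ≠ 0 by omega)]
  let s : F := y0 ^ d
  let ρ : F → F := fun y => (1 + y ^ d - (1 + y) ^ d) / (s - y ^ d)
  have hρ0 : ρ 0 = 0 := by
    simp [ρ, zero_pow (show d ≠ 0 by omega)]
  have hρy0 : ρ y0 = 0 := by simp [ρ, s]
  have hns : ¬ Function.Surjective ρ := by
    intro h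
    have h2 := Finite.injective_iff_surjective.2 h
    exact hy00 (h2 (hρy0.trans hρ0.symm))
  simp only [Function.Surjective, not_forall, not_exists] at hns
  obtain ⟨r, hr⟩ := hns
  have hr0 : r ≠ 0 := by rintro rfl; exact hr 0 hρ0
  set α : F := 1 - r * s with hα
  set β : F := 1 + r with hβ
  have hline : ∀ y : F, α + β * y ^ d ≠ (1 + y) ^ d := by
    intro y h
    have h1 : 1 + y ^ d - (1 + y) ^ d = r * (s - y ^ d) := by
      rw [← h, hα, hβ]; ring
    by_cases h2 : s - y ^ d = 0
    · rw [h2, mul_zero] at h1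
      have h3 : y = y0 := hinj (by simp only; exact (sub_eq_zero.1 h2).symm)
      subst h3
      exact hy0 (sub_eq_zero.1 h1).symm
    · apply hr y
      simp only [ρ]
      rw [h1, mul_div_assoc, div_self h2, mul_one]
  have hβ0 : β ≠ 0 := by
    intro h
    obtain ⟨w, hw⟩ := hsurj α
    simp only at hw
    apply hline (w - 1)
    rw [h, zero_mul, add_zero, add_sub_cancel, hw]
  have hβ1 : β ≠ 1 := by
    intro h
    apply hr0
    have : 1 + r = 1 + 0 := by rw [add_zero]; exact h
    exact add_left_cancel this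
  -- the root of `α + β y^d`
  obtain ⟨y1, hy1⟩ := hsurj (- α / β)
  simp only at hy1
  have hroot : ∀ y : F, α + β * y ^ d = 0 ↔ y = y1 := by
    intro y
    constructor
    · intro h
      apply hinj
      simp only
      rw [hy1, eq_div_iff hβ0]
      linear_combination h
    · rintro rfl
      rw [hy1, mul_div_cancel₀ _ hβ0]; ring
  have hy1m : y1 ≠ -1 := by
    intro h
    have h1 := (hroot y1).2 rfl
    apply hline y1
    rw [h1, h, add_neg_cancel, zero_pow (by omega)]
  -- evaluate the double sum in two ways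
  have hA : ∑ b ∈ Finset.Ico 1 N, ∑ y : F, (α + β * y ^ d) ^ b * (1 + y) ^ (N - d * b % N) = 1 := by
    rw [Finset.sum_congr rfl (g := fun b => - β ^ b)]
    · rw [Finset.sum_neg_distrib, geom_one hβ0 hβ1 N hN hN1, neg_neg]
    · intro b hb
      rw [Finset.mem_Ico] at hb
      exact sum_expand (p := p) hN hcop hb.1 hb.2 α β (fun a h1 h2 => hno b a h1 h2 hb.2)
  have hB : ∀ y : F, ∑ b ∈ Finset.Ico 1 N, (α + β * y ^ d) ^ b * (1 + y) ^ (N - d * b % N) =
      if y = -1 ∨ y = y1 then 0 else -1 := by
    intro y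
    have hmodlt : ∀ a, d * a % N < N := fun a => Nat.mod_lt _ (by omega)
    by_cases h1 : y = -1
    · rw [if_pos (Or.inl h1)]
      apply Finset.sum_eq_zero
      intro b _
      have := hmodlt b
      rw [h1, add_neg_cancel, zero_pow (by omega), mul_zero]
    · by_cases h2 : y = y1
      · rw [if_pos (Or.inr h2)]
        apply Finset.sum_eq_zero
        intro b hb
        rw [Finset.mem_Ico] at hb
        rw [(hroot y).2 h2, zero_pow (by omega), zero_mul]
      · rw [if_neg (by tauto)]
        have h3 : (1 + y) ≠ 0 := by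
          intro h; apply h1; linear_combination h
        have h4 : (1 + y) ^ d ≠ 0 := pow_ne_zero _ h3
        rw [← geom_one (w := (α + β * y ^ d) / (1 + y) ^ d)
          (div_ne_zero (fun h => h2 ((hroot y).1 h)) h4)
          (fun h => hline y ((div_eq_one_iff_eq h4).1 h)) N hN hN1]
        apply Finset.sum_congr rfl
        intro b hb
        rw [div_pow, div_eq_mul_inv]
        congr 1
        apply eq_inv_of_mul_eq_one_left
        rw [← pow_mul, ← pow_add]
        have h7 := hmodlt b
        have h8 := Nat.div_add_mod (d * b) N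
        have h9 : N - d * b % N + d * b = N * (d * b / N + 1) := by
          rw [mul_add]; omega
        rw [h9, pow_mul]
        have h10 : (1 + y) ^ N = 1 := by rw [hN]; exact FiniteField.pow_card_sub_one_eq_one _ h3
        rw [h10, one_pow]
  rw [Finset.sum_comm, Finset.sum_congr rfl (fun y _ => hB y)] at hA
  rw [Finset.sum_ite] at hA
  simp only [Finset.sum_const_zero, zero_add, Finset.sum_const, nsmul_eq_mul] at hA
  have hcard : (Finset.univ.filter (fun y : F => ¬ (y = -1 ∨ y = y1))).card = Fintype.card F - 2 := by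
    have : (Finset.univ.filter (fun y : F => ¬ (y = -1 ∨ y = y1))) = Finset.univ \ {-1, y1} := by
      ext y; simp
    rw [this, Finset.card_sdiff_of_subset (Finset.subset_univ _), Finset.card_univ,
      Finset.card_pair hy1m.symm]
  rw [hcard, Nat.cast_sub (by have := Fintype.one_lt_card (α := F); omega),
    FiniteField.cast_card_eq_zero] at hA
  have : (1 : F) = 0 := by
    push_cast at hA
    linear_combination hA
  exact one_ne_zero this


omit [DecidableEq F] in
theorem eq_one_of_additive {p : ℕ} [CharP F p] {m : ℕ} (hm1 : 1 ≤ m) (hm : m < Fintype.card F)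
    (hpm : ¬ p ∣ m) (h : ∀ y : F, (1 + y) ^ m = 1 + y ^ m) : m = 1 := by
  by_contra hne
  have hm2 : 2 ≤ m := by omega
  have hz : ((1 + Polynomial.X) ^ m - 1 - Polynomial.X ^ m : Polynomial F) = 0 := by
    apply Polynomial.eq_zero_of_natDegree_lt_card_of_eval_eq_zero' _ (Finset.univ : Finset F)
    · intro y _
      simp [h y]
    · rw [Finset.card_univ]
      refine lt_of_le_of_lt ?_ hm
      refine (Polynomial.natDegree_sub_le _ _).trans (max_le ?_ ?_)
      · refine (Polynomial.natDegree_sub_le _ _).trans (max_le ?_ ?_)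
        · refine Polynomial.natDegree_pow_le.trans ?_
          have : (1 + Polynomial.X : Polynomial F).natDegree ≤ 1 := by
            rw [add_comm, ← Polynomial.C_1, Polynomial.natDegree_X_add_C]
          calc m * (1 + Polynomial.X : Polynomial F).natDegree ≤ m * 1 := Nat.mul_le_mul_left _ this
            _ = m := mul_one m
        · simp
      · exact Polynomial.natDegree_X_pow_le m
  have hc := congrArg (fun P => Polynomial.coeff P 1) hz
  simp only [Polynomial.coeff_sub, Polynomial.coeff_zero] at hc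
  rw [Polynomial.coeff_one_add_X_pow, Polynomial.coeff_one, Polynomial.coeff_X_pow] at hc
  rw [if_neg (by omega), if_neg (by omega), Nat.choose_one_right, sub_zero, sub_zero] at hc
  exact hpm ((CharP.cast_eq_zero_iff F p m).1 hc)

end main

theorem exists_pair_nat {p M d : ℕ} (hp : p.Prime) (hM : 1 ≤ M) (hd1 : 1 ≤ d)
    (hdN : d < p ^ M - 1) (hcop : Nat.Coprime (p ^ M - 1) d) (hnp : ∀ v, d ≠ p ^ v) :
    ∃ a b, 1 ≤ a ∧ a < b ∧ b < p ^ M - 1 ∧ ¬ p ∣ b.choose a ∧
      ¬ p ∣ ((p ^ M - 1) - d * b % (p ^ M - 1)).choose ((p ^ M - 1) - d * a % (p ^ M - 1)) := by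
  classical
  have : Fact p.Prime := ⟨hp⟩
  let F := GaloisField p M
  let _ : Fintype F := Fintype.ofFinite F
  have hcard : Fintype.card F = p ^ M := by
    rw [Fintype.card_eq_nat_card]; exact GaloisField.card p M (by omega)
  have hadd : ∃ y0 : F, (1 + y0) ^ d ≠ 1 + y0 ^ d := by
    by_contra hcon
    push Not at hcon
    obtain ⟨v, m, hpm, hdm⟩ := Nat.exists_eq_pow_mul_and_not_dvd (n := d) (by omega) p hp.ne_one
    have hm1 : 1 ≤ m := by
      rcases Nat.eq_zero_or_pos m with h | h
      · subst h; simp at hpm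
      · exact h
    have hpv : 1 ≤ p ^ v := Nat.one_le_pow _ _ hp.pos
    have hmd : m ≤ d := by rw [hdm]; exact Nat.le_mul_of_pos_left _ hpv
    have hcop2 : Nat.Coprime (Fintype.card F - 1) (p ^ v) := by
      rw [hcard]
      apply Nat.Coprime.pow_right
      apply Nat.Coprime.symm
      rw [hp.coprime_iff_not_dvd]
      intro hdv
      have h1 : p ∣ p ^ M := dvd_pow_self p (by omega)
      have h2 : 1 ≤ p ^ M := Nat.one_le_pow _ _ hp.pos
      have h3 : p ∣ p ^ M - (p ^ M - 1) := Nat.dvd_sub h1 hdv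
      rw [show p ^ M - (p ^ M - 1) = 1 by omega] at h3
      exact hp.one_lt.ne' (Nat.dvd_one.1 h3)
    have hbij := pow_bij (F := F) hpv hcop2
    have hm := eq_one_of_additive (F := F) (p := p) hm1 (by rw [hcard]; omega) hpm (by
      intro z
      obtain ⟨y, hy⟩ := hbij.2 z
      simp only at hy
      have h1 := hcon y
      rw [hdm, pow_mul, pow_mul, add_pow_char_pow, one_pow, hy] at h1
      exact h1)
    exact hnp v (by rw [hdm, hm, mul_one])
  obtain ⟨y0, hy0⟩ := hadd
  have := exists_pair (F := F) (p := p) (d := d) (N := p ^ M - 1) (by rw [hcard]) hd1 hcop y0 hy0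
  exact this


/-! ### From natural numbers to `ZMod (t ^ n - 1)` -/

/-- The `i`-th digit of the standard `t`-ary expansion of `a ∈ ℤ/(t^n-1)`. -/
def digit (t n : ℕ) (a : ZMod (t ^ n - 1)) (i : ℕ) : ℕ := a.val / t ^ i % t

/-- `a ⪯ b`: every digit of `a` is at most the corresponding digit of `b`. -/
def Covered (t n : ℕ) (a b : ZMod (t ^ n - 1)) : Prop := ∀ i < n, digit t n a i ≤ digit t n b i

/-- `a ≺ b`. -/
def StrictCovered (t n : ℕ) (a b : ZMod (t ^ n - 1)) : Prop := Covered t n a b ∧ a ≠ b

/-- The conclusion of the covering conjecture for `(t, n, d)`. -/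
def Conclusion (t n d : ℕ) : Prop := ∃ a b : ZMod (t ^ n - 1), a ≠ 0 ∧ b ≠ 0 ∧
  StrictCovered t n a b ∧ StrictCovered t n ((d : ZMod (t ^ n - 1)) * b) ((d : ZMod (t ^ n - 1)) * a)

theorem conclusion_of_nat {t n d : ℕ} (hcop : Nat.Coprime (t ^ n - 1) d)
    {a b : ℕ} (ha : 1 ≤ a) (hab : a < b) (hb : b < t ^ n - 1)
    (h1 : ∀ i < n, a / t ^ i % t ≤ b / t ^ i % t)
    (h2 : ∀ i < n, (d * b % (t ^ n - 1)) / t ^ i % t ≤ (d * a % (t ^ n - 1)) / t ^ i % t) :
    Conclusion t n d := by
  have hva : ((a : ℕ) : ZMod (t ^ n - 1)).val = a := by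
    rw [ZMod.val_natCast, Nat.mod_eq_of_lt (by omega)]
  have hvb : ((b : ℕ) : ZMod (t ^ n - 1)).val = b := by
    rw [ZMod.val_natCast, Nat.mod_eq_of_lt (by omega)]
  have hne : ((a : ℕ) : ZMod (t ^ n - 1)) ≠ (b : ℕ) := by
    intro h
    have := congrArg ZMod.val h
    rw [hva, hvb] at this
    omega
  have hne0 : ∀ x : ℕ, 1 ≤ x → x < t ^ n - 1 → ((x : ℕ) : ZMod (t ^ n - 1)) ≠ 0 := by
    intro x hx1 hx2 h
    rw [ZMod.natCast_eq_zero_iff] at h
    exact absurd (Nat.le_of_dvd (by omega) h) (by omega)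
  refine ⟨(a : ℕ), (b : ℕ), hne0 a ha (by omega), hne0 b (by omega) hb, ⟨?_, hne⟩, ⟨?_, ?_⟩⟩
  · intro i hi
    simp only [digit, hva, hvb]
    exact h1 i hi
  · intro i hi
    simp only [digit, ← Nat.cast_mul, ZMod.val_natCast]
    exact h2 i hi
  · intro h
    have hu : IsUnit ((d : ℕ) : ZMod (t ^ n - 1)) := (ZMod.isUnit_iff_coprime d _).2 hcop.symm
    exact hne (hu.mul_left_cancel h).symm

theorem exists_digit_pos {t : ℕ} (ht : 2 ≤ t) : ∀ (n x : ℕ), x < t ^ n → 0 < x →
    ∃ i < n, 1 ≤ x / t ^ i % t := by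
  intro n
  induction n with
  | zero => intro x h1 h2; simp at h1; omega
  | succ n ih =>
    intro x h1 h2
    by_cases h : x % t = 0
    · have h3 : 0 < x / t := by
        rcases Nat.eq_zero_or_pos (x / t) with h4 | h4
        · have := Nat.div_add_mod x t
          rw [h4, h] at this; omega
        · exact h4
      obtain ⟨i, hi, h5⟩ := ih (x / t) (by
        rw [Nat.div_lt_iff_lt_mul (by omega), ← pow_succ]; exact h1) h3
      refine ⟨i + 1, by omega, ?_⟩
      rw [pow_succ', ← Nat.div_div_eq_div_mul]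
      exact h5
    · exact ⟨0, by omega, by simp only [pow_zero, Nat.div_one]; omega⟩

theorem digit_pow {t : ℕ} (ht : 2 ≤ t) (i j : ℕ) : t ^ i / t ^ j % t = if i = j then 1 else 0 := by
  rcases lt_trichotomy i j with h | h | h
  · rw [if_neg (by omega), Nat.div_eq_of_lt (Nat.pow_lt_pow_right (by omega) h)]
    simp
  · subst h
    rw [if_pos rfl, Nat.div_self (by positivity), Nat.mod_eq_of_lt (by omega)]
  · rw [if_neg (by omega), Nat.pow_div h.le (by omega)]
    obtain ⟨k, hk⟩ : ∃ k, i - j = k + 1 := ⟨i - j - 1, by omega⟩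
    rw [hk, pow_succ, Nat.mul_mod_left]

/-- the non-coprime case, valid for every base `t` -/
theorem conclusion_of_not_coprime {t n d : ℕ} (ht : 2 ≤ t) (hn : 1 ≤ n)
    (hd0 : (d : ZMod (t ^ n - 1)) ≠ 0) (hcop : ¬ Nat.Coprime (t ^ n - 1) d) :
    Conclusion t n d := by
  have hpos : 1 < t ^ n := Nat.one_lt_pow (by omega) (by omega)
  have hNpos : 0 < t ^ n - 1 := by omega
  have hg : 1 < Nat.gcd (t ^ n - 1) d := by
    have h1 : 0 < Nat.gcd (t ^ n - 1) d := Nat.gcd_pos_of_pos_left _ hNpos
    have h2 : Nat.gcd (t ^ n - 1) d ≠ 1 := hcop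
    omega
  have hgN := Nat.gcd_dvd_left (t ^ n - 1) d
  have hgd := Nat.gcd_dvd_right (t ^ n - 1) d
  generalize hgdef : Nat.gcd (t ^ n - 1) d = g at *
  have hN2 : 2 ≤ t ^ n - 1 := le_trans hg (Nat.le_of_dvd hNpos hgN)
  have hb1 : 0 < (t ^ n - 1) / g := Nat.div_pos (Nat.le_of_dvd hNpos hgN) (by omega)
  have hb2 : (t ^ n - 1) / g < t ^ n - 1 := Nat.div_lt_self hNpos hg
  set b := (t ^ n - 1) / g with hb
  have hvb : ((b : ℕ) : ZMod (t ^ n - 1)).val = b := by
    rw [ZMod.val_natCast, Nat.mod_eq_of_lt hb2]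
  have hdb : (d : ZMod (t ^ n - 1)) * (b : ℕ) = 0 := by
    rw [← Nat.cast_mul, ZMod.natCast_eq_zero_iff]
    obtain ⟨c, hc⟩ := hgd
    rw [hc, mul_comm g c, mul_assoc, hb, Nat.mul_div_cancel' hgN]
    exact dvd_mul_left _ _
  obtain ⟨i, hi, hdi⟩ := exists_digit_pos ht n b (by omega) hb1
  have hti : t ^ i < t ^ n - 1 := by
    rcases Nat.eq_zero_or_pos i with h | h
    · subst h; simp; omega
    · have h1 : t ^ (i + 1) ≤ t ^ n := Nat.pow_le_pow_right (by omega) hi
      have h2 : 2 * t ^ i ≤ t ^ (i + 1) := by rw [pow_succ']; exact Nat.mul_le_mul_right _ ht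
      have h3 : 1 < t ^ i := Nat.one_lt_pow (by omega) (by omega)
      omega
  have hva : ((t ^ i : ℕ) : ZMod (t ^ n - 1)).val = t ^ i := by
    rw [ZMod.val_natCast, Nat.mod_eq_of_lt hti]
  have hda : (d : ZMod (t ^ n - 1)) * (t ^ i : ℕ) ≠ 0 := by
    intro h
    apply hd0
    have h1 : ((t ^ n : ℕ) : ZMod (t ^ n - 1)) = 1 := by
      have h := ZMod.natCast_self (t ^ n - 1)
      rw [Nat.cast_sub hpos.le, Nat.cast_one, sub_eq_zero] at h
      exact h
    have h2 : (d : ZMod (t ^ n - 1)) * (t ^ i : ℕ) * (t ^ (n - i) : ℕ) = d := by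
      rw [mul_assoc, ← Nat.cast_mul, ← pow_add, Nat.add_sub_cancel' hi.le, h1, mul_one]
    rw [h, zero_mul] at h2
    exact h2.symm
  refine ⟨(t ^ i : ℕ), (b : ℕ), ?_, ?_, ⟨?_, ?_⟩, ⟨?_, ?_⟩⟩
  · intro h; rw [h, mul_zero] at hda; exact hda rfl
  · intro h
    have := congrArg ZMod.val h
    rw [hvb, ZMod.val_zero] at this; omega
  · intro j hj
    simp only [digit, hva, hvb]
    rw [digit_pow ht]
    split_ifs with h
    · subst h; exact hdi
    · exact Nat.zero_le _
  · intro h; rw [h] at hda; exact hda hdb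
  · intro j hj
    rw [hdb]
    simp [digit, ZMod.val_zero]
  · rw [hdb]; exact hda.symm

theorem repdigit {t : ℕ} (ht : 2 ≤ t) {x : ℕ} (hx : x < t) : ∀ (n i : ℕ), i < n →
    (x * ∑ j ∈ Finset.range n, t ^ j) / t ^ i % t = x := by
  intro n
  induction n with
  | zero => intro i hi; omega
  | succ n ih =>
    intro i hi
    have h1 : ∑ j ∈ Finset.range (n + 1), t ^ j = 1 + t * ∑ j ∈ Finset.range n, t ^ j := by
      rw [Finset.sum_range_succ', Finset.mul_sum, add_comm]
      congr 1
      apply Finset.sum_congr rfl; intro j _; rw [pow_succ']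
    have h2 : x * ∑ j ∈ Finset.range (n + 1), t ^ j =
        x + t * (x * ∑ j ∈ Finset.range n, t ^ j) := by rw [h1]; ring
    rcases i with _ | i
    · rw [h2, pow_zero, Nat.div_one, Nat.add_mul_mod_self_left, Nat.mod_eq_of_lt hx]
    · rw [h2, pow_succ', ← Nat.div_div_eq_div_mul, Nat.add_mul_div_left _ _ (by omega),
        Nat.div_eq_of_lt hx, zero_add]
      exact ih i (by omega)


/-- the case in which `d` is a power of `p` but not of `t = p ^ k` -/
theorem conclusion_of_pow {p k n d v : ℕ} (hp : p.Prime) (hk : 1 ≤ k) (hn : 1 ≤ n)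
    (hcop : Nat.Coprime ((p ^ k) ^ n - 1) d)
    (hdt : ∀ j : ℕ, (d : ZMod ((p ^ k) ^ n - 1)) ≠ ((p ^ k : ℕ) : ZMod ((p ^ k) ^ n - 1)) ^ j)
    (hv : d ≡ p ^ v [MOD ((p ^ k) ^ n - 1)]) : Conclusion (p ^ k) n d := by
  set t := p ^ k with ht
  have hp2 := hp.two_le
  obtain ⟨i, j0, hvj, hj0⟩ : ∃ i j0, v = k * i + j0 ∧ j0 < k :=
    ⟨v / k, v % k, (Nat.div_add_mod v k).symm, Nat.mod_lt _ (by omega)⟩
  have hpv : p ^ v = t ^ i * p ^ j0 := by rw [hvj, pow_add, pow_mul]
  have hj1 : 1 ≤ j0 := by
    rcases Nat.eq_zero_or_pos j0 with h | h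
    · subst h
      exfalso
      apply hdt i
      rw [pow_zero, mul_one] at hpv
      rw [hpv] at hv
      have := (ZMod.natCast_eq_natCast_iff _ _ _).2 hv
      rw [this, Nat.cast_pow]
    · exact h
  have hpj : 2 ≤ p ^ j0 := by
    calc 2 ≤ p := hp2
      _ = p ^ 1 := (pow_one p).symm
      _ ≤ p ^ j0 := Nat.pow_le_pow_right (by omega) hj1
  have hpkj : 2 ≤ p ^ (k - j0) := by
    calc 2 ≤ p := hp2
      _ = p ^ 1 := (pow_one p).symm
      _ ≤ p ^ (k - j0) := Nat.pow_le_pow_right (by omega) (by omega)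
  have htt : t = p ^ j0 * p ^ (k - j0) := by
    rw [ht, ← pow_add]; congr 1; omega
  set x := p ^ j0 with hx
  set y := p ^ (k - j0) with hy
  have ht4 : 4 ≤ t := by rw [htt]; exact Nat.mul_le_mul hpj hpkj
  have hxt : 2 * x ≤ t := by rw [htt, mul_comm 2 x]; exact Nat.mul_le_mul_left _ hpkj
  have hyt : 2 * y ≤ t := by rw [htt]; exact Nat.mul_le_mul_right _ hpj
  set r := ∑ j ∈ Finset.range n, t ^ j with hr
  have hgeom : t * r = r + (t ^ n - 1) := by
    have h1 := Nat.geomSum_eq (show 2 ≤ t by omega) n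
    have h2 : (t - 1) * r = t ^ n - 1 := by
      have h3 := mul_geom_sum (t : ℤ) n
      have h4 : 1 ≤ t ^ n := Nat.one_le_pow _ _ (by omega)
      zify [h4, (show 1 ≤ t by omega)]
      rw [hr]; push_cast
      exact h3
    rw [← h2, Nat.sub_mul, one_mul]
    have : r ≤ t * r := Nat.le_mul_of_pos_left _ (by omega)
    omega
  have hr1 : 1 ≤ r := by
    rw [hr]
    calc 1 = t ^ 0 := (pow_zero t).symm
      _ ≤ _ := Finset.single_le_sum (f := fun j => t ^ j) (fun _ _ => Nat.zero_le _)
        (Finset.mem_range.2 (by omega))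
  generalize hNdef : t ^ n - 1 = N at *
  have htr : t * r ≡ r [MOD N] := by
    rw [hgeom]; unfold Nat.ModEq; rw [Nat.add_mod_right]
  have htir : ∀ i, t ^ i * r ≡ r [MOD N] := by
    intro i
    induction i with
    | zero => rw [pow_zero, one_mul]
    | succ i ih =>
      rw [pow_succ', mul_assoc]
      exact (Nat.ModEq.mul_left t ih).trans htr
  have hsmall : ∀ z, z < t - 1 → z * r < N := by
    intro z hz
    have h1 : (t - 1) * r = N := by
      rw [Nat.sub_mul, one_mul]; omega
    rw [← h1]
    exact Nat.mul_lt_mul_of_pos_right hz hr1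
  have hdb : d * (y * r) % N = r := by
    have h1 : d * (y * r) ≡ r [MOD N] := by
      refine (Nat.ModEq.mul_right _ hv).trans ?_
      rw [hpv, show t ^ i * x * (y * r) = t ^ (i + 1) * r by rw [pow_succ, htt]; ring]
      exact htir _
    have h2 : r < N := by have := hsmall 1 (by omega); rwa [one_mul] at this
    have h3 : d * (y * r) % N = r % N := h1
    rw [h3, Nat.mod_eq_of_lt h2]
  have hda : d * ((y - 1) * r) % N = (t - x) * r := by
    have h1 : d * ((y - 1) * r) ≡ (t - x) * r [MOD N] := by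
      refine (Nat.ModEq.mul_right _ hv).trans ?_
      have h2 : x * (y - 1) = t - x := by rw [Nat.mul_sub, mul_one, ← htt]
      rw [hpv, show t ^ i * x * ((y - 1) * r) = (x * (y - 1)) * (t ^ i * r) by ring, h2]
      exact Nat.ModEq.mul_left _ (htir i)
    have h3 : d * ((y - 1) * r) % N = ((t - x) * r) % N := h1
    rw [h3, Nat.mod_eq_of_lt (hsmall _ (by omega))]
  subst hNdef
  refine conclusion_of_nat (t := t) (n := n) (d := d) hcop (a := (y - 1) * r) (b := y * r) ?_ ?_ ?_ ?_ ?_
  · exact Nat.one_le_iff_ne_zero.2 (Nat.mul_ne_zero (by omega) (by omega))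
  · exact Nat.mul_lt_mul_of_pos_right (by omega) hr1
  · exact hsmall _ (by omega)
  · intro i hi
    rw [hr, repdigit (by omega) (by omega) n i hi, repdigit (by omega) (by omega) n i hi]
    omega
  · intro i hi
    rw [hdb, hda]
    have h1 := repdigit (t := t) (by omega) (x := 1) (by omega) n i hi
    rw [one_mul] at h1
    rw [hr, h1, repdigit (by omega) (by omega) n i hi]
    omega

theorem covering_primePow (t n d : ℕ) (ht : IsPrimePow t) (hn : 1 ≤ n)
    (hd0 : (d : ZMod (t ^ n - 1)) ≠ 0)
    (hdt : ∀ j : ℕ, (d : ZMod (t ^ n - 1)) ≠ (t : ZMod (t ^ n - 1)) ^ j) :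
    Conclusion t n d := by
  obtain ⟨p, k, hp, hk, rfl⟩ := (isPrimePow_nat_iff _).1 ht
  by_cases hcop : Nat.Coprime ((p ^ k) ^ n - 1) d
  swap
  · exact conclusion_of_not_coprime ht.two_le hn hd0 hcop
  by_cases hv : ∃ v, d ≡ p ^ v [MOD ((p ^ k) ^ n - 1)]
  · obtain ⟨v, hv⟩ := hv
    exact conclusion_of_pow hp hk hn hcop hdt hv
  · push Not at hv
    have ht2 := ht.two_le
    have hpos : 1 < (p ^ k) ^ n := Nat.one_lt_pow (by omega) (by omega)
    have hd1 : 1 ≤ d % ((p ^ k) ^ n - 1) := by
      rcases Nat.eq_zero_or_pos (d % ((p ^ k) ^ n - 1)) with h | h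
      · exfalso; apply hd0
        rw [ZMod.natCast_eq_zero_iff]; exact Nat.dvd_of_mod_eq_zero h
      · exact h
    have hdN : d % ((p ^ k) ^ n - 1) < (p ^ k) ^ n - 1 := Nat.mod_lt _ (by omega)
    have hcop' : Nat.Coprime ((p ^ k) ^ n - 1) (d % ((p ^ k) ^ n - 1)) := by
      unfold Nat.Coprime
      rw [Nat.gcd_comm, ← Nat.gcd_rec]; exact hcop
    have hnp : ∀ v, d % ((p ^ k) ^ n - 1) ≠ p ^ v := by
      intro v h
      apply hv v
      unfold Nat.ModEq
      rw [← h, Nat.mod_mod]
    have hNe : (p ^ k) ^ n - 1 = p ^ (k * n) - 1 := by rw [pow_mul]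
    rw [hNe] at hd1 hdN hcop' hnp
    obtain ⟨a, b, h1, h2, h3, h4, h5⟩ := exists_pair_nat hp
      (Nat.mul_pos hk hn) hd1 hdN hcop' hnp
    rw [← hNe] at h3 h5
    have hmm : ∀ z, d % ((p ^ k) ^ n - 1) * z % ((p ^ k) ^ n - 1) = d * z % ((p ^ k) ^ n - 1) := by
      intro z; rw [Nat.mod_mul_mod]
    rw [hmm, hmm] at h5
    refine conclusion_of_nat hcop h1 h2 h3 (fun i _ => digit_of_choose hp k h4 i) ?_
    intro i hi
    have h6 := digit_of_choose hp k h5 i
    have hlt : ∀ z, d * z % ((p ^ k) ^ n - 1) < (p ^ k) ^ n - 1 := fun z => Nat.mod_lt _ (by omega)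
    have h7 := digit_compl ht2 n (d * a % ((p ^ k) ^ n - 1))
      (((p ^ k) ^ n - 1) - d * a % ((p ^ k) ^ n - 1)) (by have := hlt a; omega) i hi
    have h8 := digit_compl ht2 n (d * b % ((p ^ k) ^ n - 1))
      (((p ^ k) ^ n - 1) - d * b % ((p ^ k) ^ n - 1)) (by have := hlt b; omega) i hi
    omega

/-- **The covering conjecture holds for every prime power base `t`.** If `t` is a prime power,
`n ≥ 1`, and `d` is neither `0` nor a power of `t` modulo `t ^ n - 1`, then there are nonzero
`a, b ∈ ℤ/(t^n-1)` with `a ≺ b` and `d b ≺ d a`. -/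
theorem result (t n d : ℕ) (ht : IsPrimePow t) (hn : 1 ≤ n)
    (hd0 : (d : ZMod (t ^ n - 1)) ≠ 0)
    (hdt : ∀ j : ℕ, (d : ZMod (t ^ n - 1)) ≠ (t : ZMod (t ^ n - 1)) ^ j) :
    ∃ a b : ZMod (t ^ n - 1), a ≠ 0 ∧ b ≠ 0 ∧
      StrictCovered t n a b ∧
      StrictCovered t n ((d : ZMod (t ^ n - 1)) * b) ((d : ZMod (t ^ n - 1)) * a) :=
  covering_primePow t n d ht hn hd0 hdt

end Pool.Agent.Results.MP_afa377_nt.CoveringPrimePower
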